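import Pool.Agent.W626.AH.Stm

/-!
# AH-HH: the injective hull is hyperbolic
-/

set_option autoImplicit false

namespace Pool.Agent.W160.AH.HH

open Pool.Agent.W626.AH

theorem main : Pool.Agent.W626.AH.S_hm → Pool.Agent.W626.AH.S_hh := by
  intro hm X _ d hd0 hH e f g h
  obtain ⟨h1, h2, -⟩ := hm X d hd0
  have h3 : ∀ (f g : Hull d) (x : X), f.1 x - g.1 x ≤ hd f g := fun f g x =>
    (le_abs_self _).trans (h1 f g x)
  obtain ⟨M, hM⟩ : ∃ M, M = max (hd e g + hd f h) (hd e h + hd f g) + 1 := ⟨_, rfl⟩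
  rw [← hM]
  have hM1 : hd e g + hd f h + 1 ≤ M := by
    rw [hM]
    linarith [le_max_left (hd e g + hd f h) (hd e h + hd f g)]
  have hM2 : hd e h + hd f g + 1 ≤ M := by
    rw [hM]
    linarith [le_max_right (hd e g + hd f h) (hd e h + hd f g)]
  have key : ∀ x z, e.1 x - f.1 x + (g.1 z - h.1 z) ≤ M := by
    intro x z
    refine le_of_forall_pos_le_add fun ε hε => ?_
    obtain ⟨y, hy⟩ := e.2.2 x (ε / 2) (by linarith)
    obtain ⟨w, hw⟩ := g.2.2 z (ε / 2) (by linarith)
    have h4 := hH x y z w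
    rcases le_total (d x z + d y w) (d x w + d y z) with hc | hc
    · rw [max_eq_right hc] at h4
      have a1 := f.2.1 x w
      have a2 := e.2.1 y z
      have a3 := h3 f g w
      have a4 := h3 e h z
      linarith
    · rw [max_eq_left hc] at h4
      have a1 := f.2.1 x z
      have a2 := e.2.1 y w
      have a3 := h3 f h z
      have a4 := h3 e g w
      linarith
  have h5 : hd e f ≤ M - hd g h := by
    refine h2 e f _ fun x => ?_
    have h6 : hd g h ≤ M - (e.1 x - f.1 x) := h2 g h _ fun z => by linarith [key x z]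
    linarith
  linarith

end Pool.Agent.W160.AH.HH
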